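import Mathlib
import Pool.Agent.Helper9.NS
import Pool.Agent.Helper26.VC.Defs

/-!
# JC: the base change of a curve over a field to the algebraic closure of the field
-/

namespace Pool.Agent.Helper79.JC

open VC

universe u

/-- Let `X` be the curve over `K` with function field `F` (`κ : K → F`). The field `M` is the function field of the curve `X_Ω`:
it is a function field of one variable over `Ω` and equal to the tensor product of `Ω` and `F` over `K`. -/
structure BC {k K F : Type u} [Field k] [Field K] [Algebra k K] [Field F] [Algebra k F] (κ : K →ₐ[k] F)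
    (Ω M : Type u) [Field Ω] [Algebra k Ω] [Algebra K Ω] [Field M] [Algebra k M] [Algebra Ω M] where
  j : F →ₐ[k] M
  hj : ∀ a : K, j (κ a) = algebraMap Ω M (algebraMap K Ω a)
  ff : IsFunctionField Ω M
  gen : Algebra.adjoin Ω (Set.range j) = ⊤
  lin : ∀ (n : ℕ) (f : Fin n → F), (∀ c : Fin n → K, ∑ l, κ (c l) * f l = 0 → c = 0) →
    ∀ c : Fin n → Ω, ∑ l, algebraMap Ω M (c l) * j (f l) = 0 → c = 0

end Pool.Agent.Helper79.JC
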