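import Mathlib
import Pool.Agent.Helper98.JC.Orth
import Pool.Agent.Helper79.JC.BC

/-!
# JC: the rule for correspondences on the generic fibre, definitions

`K` is the function field of a curve over `k`, `Ω` an algebraic closure of `K`, `F` is the function field of a curve `X`
over `K` (embedding `κ : K → F`) and `M` is the function field of the curve `X_Ω`.
-/

set_option linter.unusedSectionVars false

namespace Pool.Agent.Helper79.JC

open VC VF Function Polynomial Pool.Agent.Helper21.TO Pool.Agent.Helper15.GT Pool.Agent.Helper15.KP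
open Pool.Agent.Helper98.JC
open Pool.Agent.Helper51.VN (Harm)

universe u

section

variable {k K F : Type u} [Field k] [IsAlgClosed k] [CharZero k] [Field K] [Algebra k K] [Field F] [Algebra k F]
  {κ : K →ₐ[k] F} {Ω M : Type u} [Field Ω] [Algebra k Ω] [Algebra K Ω] [IsScalarTower k K Ω] [IsAlgClosed Ω]
  [CharZero Ω] [Algebra.IsAlgebraic K Ω] [Field M] [Algebra k M] [Algebra Ω M] [IsScalarTower k Ω M]

/-- The embedding of `F` in the algebraic closure of `M`. -/
noncomputable def BC.iA (D : BC κ Ω M) : F →ₐ[k] AlgebraicClosure M :=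
  (IsScalarTower.toAlgHom k M (AlgebraicClosure M)).comp D.j

/-- Let `f`, `g` be embeddings of the function field `E` of a curve `Y` over `K` in `F`, i.e. finite morphisms `X → Y`,
and let `x` be a place of an algebraic closure of `M` over `Ω`. This is the divisor `f^* g_* x` on `X_Ω`, the sum of the
restrictions of `x` along the embeddings `σ` of `M` over `Ω` with `σ f = g`. -/
noncomputable def corr (D : BC κ Ω M) {E : Type u} (f g : E → F) (x : RPl Ω (AlgebraicClosure M)) :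
    Place Ω M →₀ ℤ :=
  ∑ᶠ σ : {σ : M →ₐ[Ω] AlgebraicClosure M // ∀ z : E, σ (D.j (f z)) = D.iA (g z)},
    Finsupp.single (x.pl D.ff σ.1) 1

/-- The sum of the values of `u` at the restrictions of `w` along the embeddings `σ` of `F` with `σ f = g`. -/
noncomputable def cE (D : BC κ Ω M) {E : Type u} (f g : E → F) (u : RPl k F → k)
    (w : RPl k (AlgebraicClosure M)) : k :=
  ∑ᶠ σ : {σ : F →ₐ[k] AlgebraicClosure M // ∀ z : E, σ (f z) = D.iA (g z)}, u (w.comap σ.1)

end

/-! ### The blocks -/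

/-- [ADD] sums of harmonic functions. -/
def StmtAdd : Prop := ∀ (k F : Type u) [Field k] [IsAlgClosed k] [CharZero k] [Field F] [Algebra k F]
    (u v : RPl k F → k) (_ : HF k F u) (_ : HF k F v), HF k F (fun w => u w + v w)

/-- [EXT] extension of embeddings to `M`. -/
def StmtExt : Prop := ∀ (k K F : Type u) [Field k] [IsAlgClosed k] [CharZero k] [Field K] [Algebra k K] [Field F]
    [Algebra k F] (κ : K →ₐ[k] F) (Ω M : Type u) [Field Ω] [Algebra k Ω] [Algebra K Ω] [IsScalarTower k K Ω]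
    [IsAlgClosed Ω] [CharZero Ω] [Algebra.IsAlgebraic K Ω] [Field M] [Algebra k M] [Algebra Ω M]
    [IsScalarTower k Ω M] (D : BC κ Ω M) (σ : F →ₐ[k] AlgebraicClosure M)
    (_ : ∀ a : K, σ (κ a) = algebraMap Ω (AlgebraicClosure M) (algebraMap K Ω a)),
    ∃! σ' : M →ₐ[Ω] AlgebraicClosure M, ∀ z : F, σ' (D.j z) = σ z

/-- [FAM] the correspondence given by a finite morphism `f`, and its values at all places. -/
def StmtFam : Prop := ∀ (k E F A : Type u) [Field k] [IsAlgClosed k] [CharZero k] [Field E] [Algebra k E] [Field F]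
    [Algebra k F] [Field A] [Algebra k A] [IsAlgClosed A] (iA : F →ₐ[k] A)
    (_ : ∀ z : A, ∃ p : F[X], p ≠ 0 ∧ p.eval₂ (iA : F →+* A) z = 0)
    (f : E →ₐ[k] F) (_ : (f : E →+* F).Finite) (N : ℕ) (ξ : Fin N → F) (hξ : ξ ≠ 0),
    ∃ (d : ℕ) (η : Fin d → E) (hη : η ≠ 0) (Z : (proj k (van k η)).Pt → (proj k (van k ξ)).Cycles),
      Cor (proj k (van k η)) (proj k (van k ξ)) Z ∧
      ∀ (g : E →ₐ[k] F) (_ : (g : E →+* F).Finite) (w : RPl k A),
        Finite {σ : F →ₐ[k] A // ∀ z : E, σ (f z) = iA (g z)} ∧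
        Z (evP η hη (w.comap (iA.comp g))) =
          ∑ᶠ σ : {σ : F →ₐ[k] A // ∀ z : E, σ (f z) = iA (g z)}, Finsupp.single (evP ξ hξ (w.comap σ.1)) 1

/-- [REL] a combination of correspondences which is principal on `X_Ω`. -/
def StmtRel : Prop := ∀ (k K F : Type u) [Field k] [IsAlgClosed k] [CharZero k] [Field K] [Algebra k K] [Field F]
    [Algebra k F] (κ : K →ₐ[k] F) (Ω M : Type u) [Field Ω] [Algebra k Ω] [Algebra K Ω] [IsScalarTower k K Ω]
    [IsAlgClosed Ω] [CharZero Ω] [Algebra.IsAlgebraic K Ω] [Field M] [Algebra k M] [Algebra Ω M]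
    [IsScalarTower k Ω M] (_ : IsFunctionField k K) (D : BC κ Ω M)
    (I : Type) [Fintype I] (c : I → ℤ) (E : I → Type u) [∀ t, Field (E t)] [∀ t, Algebra k (E t)]
    (κE : ∀ t, K →ₐ[k] E t) (f g : ∀ t, E t →ₐ[k] F)
    (_ : ∀ t, (f t).comp (κE t) = κ) (_ : ∀ t, (g t).comp (κE t) = κ)
    (_ : ∀ t, (f t : E t →+* F).Finite) (_ : ∀ t, (g t : E t →+* F).Finite)
    (_ : ∀ x y : RPl Ω (AlgebraicClosure M),
      ∑ t, c t • (corr D (f t) (g t) x - corr D (f t) (g t) y) ∈ (curve D.ff).Rat)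
    (u : RPl k F → k) (_ : HF k F u) (x y : RPl Ω (AlgebraicClosure M)) (P : RPl k Ω),
    ∑ t, (c t : k) * cE D (f t) (g t) u (cmp x P) = ∑ t, (c t : k) * cE D (f t) (g t) u (cmp y P)

/-- [GEN] over almost all points every point of a model is the center of a composite place. -/
def StmtGen : Prop := ∀ (k K F : Type u) [Field k] [IsAlgClosed k] [CharZero k] [Field K] [Algebra k K] [Field F]
    [Algebra k F] (κ : K →ₐ[k] F) (Ω M : Type u) [Field Ω] [Algebra k Ω] [Algebra K Ω] [IsScalarTower k K Ω]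
    [IsAlgClosed Ω] [CharZero Ω] [Algebra.IsAlgebraic K Ω] [Field M] [Algebra k M] [Algebra Ω M]
    [IsScalarTower k Ω M] (_ : IsFunctionField k K) (D : BC κ Ω M) (N : ℕ) (ξ : Fin N → F) (hξ : ξ ≠ 0),
    ∃ G : Set F, G.Finite ∧ ∀ w : RPl k F, (∀ z ∈ G, z ∈ w.ring) →
      ∃ (x : RPl Ω M) (P : RPl k Ω), P.comap (IsScalarTower.toAlgHom k K Ω) = w.comap κ ∧
        evP ξ hξ ((cmp x P).comap D.j) = evP ξ hξ w

/-- [SEC] the restriction of a harmonic function to the section given by a place. -/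
def StmtSec : Prop := ∀ (k K Ω M : Type u) [Field k] [IsAlgClosed k] [CharZero k] [Field K] [Algebra k K]
    [Field Ω] [Algebra k Ω] [Algebra K Ω] [IsScalarTower k K Ω]
    [IsAlgClosed Ω] [CharZero Ω] [Algebra.IsAlgebraic K Ω] [Field M] [Algebra k M] [Algebra Ω M]
    [IsScalarTower k Ω M] (_ : IsFunctionField k K) (u : RPl k M → k) (_ : HF k M u) (x : RPl Ω M),
    ∃ (K' : Type u) (_ : Field K') (_ : Algebra k K') (_ : Algebra K K') (_ : IsScalarTower k K K')
      (_ : FiniteDimensional K K') (_ : IsGalois K K') (hK' : IsFunctionField k K') (e : K' →ₐ[k] Ω)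
      (_ : ∀ a : K, e (algebraMap K K' a) = algebraMap K Ω a) (ν : Place k K' → k), Harm hK' ν ∧
      ∀ P : RPl k Ω, u (cmp x P) = ν (P.pl hK' e)

/-- [TW] the twist of a place by an automorphism of `Ω` over `K`. -/
def StmtTw : Prop := ∀ (k K F : Type u) [Field k] [IsAlgClosed k] [CharZero k] [Field K] [Algebra k K] [Field F]
    [Algebra k F] (κ : K →ₐ[k] F) (Ω M : Type u) [Field Ω] [Algebra k Ω] [Algebra K Ω] [IsScalarTower k K Ω]
    [IsAlgClosed Ω] [CharZero Ω] [Algebra.IsAlgebraic K Ω] [Field M] [Algebra k M] [Algebra Ω M]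
    [IsScalarTower k Ω M] (D : BC κ Ω M) (τ : Ω ≃ₐ[K] Ω) (x : RPl Ω M),
    ∃ x' : RPl Ω M, ∀ P : RPl k Ω, (cmp x (P.comap ((τ.restrictScalars k : Ω ≃ₐ[k] Ω) : Ω →ₐ[k] Ω))).comap D.j =
      (cmp x' P).comap D.j

/-- [DSC] a harmonic function which does not depend on the place of `X_Ω` is harmonic on the base over the composite
places. -/
def StmtDsc : Prop := ∀ (k K F : Type u) [Field k] [IsAlgClosed k] [CharZero k] [Field K] [Algebra k K] [Field F]
    [Algebra k F] (κ : K →ₐ[k] F) (Ω M : Type u) [Field Ω] [Algebra k Ω] [Algebra K Ω] [IsScalarTower k K Ω]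
    [IsAlgClosed Ω] [CharZero Ω] [Algebra.IsAlgebraic K Ω] [Field M] [Algebra k M] [Algebra Ω M]
    [IsScalarTower k Ω M] (hK : IsFunctionField k K) (D : BC κ Ω M) (v : RPl k F → k) (_ : HF k F v)
    (_ : ∀ (x y : RPl Ω M) (P : RPl k Ω), v ((cmp x P).comap D.j) = v ((cmp y P).comap D.j)),
    ∃ ν : Place k K → k, Harm hK ν ∧
      ∀ (x : RPl Ω M) (P : RPl k Ω), v ((cmp x P).comap D.j) = ν (P.pl hK (IsScalarTower.toAlgHom k K Ω))

/-- [HARM] the conclusion, from which the block of the cycles starts. -/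
def StmtHarm : Prop := ∀ (k K F : Type u) [Field k] [IsAlgClosed k] [CharZero k] [Field K] [Algebra k K] [Field F]
    [Algebra k F] (κ : K →ₐ[k] F) (Ω M : Type u) [Field Ω] [Algebra k Ω] [Algebra K Ω] [IsScalarTower k K Ω]
    [IsAlgClosed Ω] [CharZero Ω] [Algebra.IsAlgebraic K Ω] [Field M] [Algebra k M] [Algebra Ω M]
    [IsScalarTower k Ω M] (hK : IsFunctionField k K) (D : BC κ Ω M)
    (I : Type) [Fintype I] (c : I → ℤ) (E : I → Type u) [∀ t, Field (E t)] [∀ t, Algebra k (E t)]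
    (κE : ∀ t, K →ₐ[k] E t) (f g : ∀ t, E t →ₐ[k] F)
    (_ : ∀ t, (f t).comp (κE t) = κ) (_ : ∀ t, (g t).comp (κE t) = κ)
    (_ : ∀ t, (f t : E t →+* F).Finite) (_ : ∀ t, (g t : E t →+* F).Finite)
    (_ : ∀ x y : RPl Ω (AlgebraicClosure M),
      ∑ t, c t • (corr D (f t) (g t) x - corr D (f t) (g t) y) ∈ (curve D.ff).Rat)
    (u : RPl k F → k) (_ : HF k F u),
    ∃ ν : Place k K → k, Harm hK ν ∧ ∀ w : RPl k (AlgebraicClosure M),
      ∑ t, (c t : k) * cE D (f t) (g t) u w = ν ((w.comap D.iA).pl hK κ)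

end Pool.Agent.Helper79.JC
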