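import Mathlib
import Pool.Agent.Helper79.JC.Defs

/-!
# JC: extension of embeddings
-/

set_option linter.unusedSectionVars false

namespace Pool.Agent.Helper79.JC

open VC VF Function Polynomial Pool.Agent.Helper21.TO Pool.Agent.Helper15.GT Pool.Agent.Helper15.KP
open Pool.Agent.Helper98.JC TensorProduct

universe u

/-- The tensor product of `Ω` and `F` over `K` is `M`: extension of embeddings to an arbitrary ring. -/
theorem exists_ext {k K F : Type u} [Field k] [Field K] [Algebra k K] [Field F] [Algebra k F] {κ : K →ₐ[k] F}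
    {Ω M : Type u} [Field Ω] [Algebra k Ω] [Algebra K Ω] [Field M] [Algebra k M] [Algebra Ω M]
    (D : BC κ Ω M) {B : Type u} [CommRing B] (θ : Ω →+* B) (σ : F →+* B)
    (h : ∀ a : K, σ (κ a) = θ (algebraMap K Ω a)) :
    ∃ σ' : M →+* B, (∀ z : F, σ' (D.j z) = σ z) ∧ ∀ a : Ω, σ' (algebraMap Ω M a) = θ a := by
  classical
  let _ : Algebra K F := (κ : K →+* F).toAlgebra
  let _ : Algebra K M := ((algebraMap Ω M).comp (algebraMap K Ω)).toAlgebra
  let _ : Algebra Ω B := θ.toAlgebra
  let _ : Algebra K B := (θ.comp (algebraMap K Ω)).toAlgebra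
  have : IsScalarTower K Ω M := IsScalarTower.of_algebraMap_eq fun _ => rfl
  have : IsScalarTower K Ω B := IsScalarTower.of_algebraMap_eq fun _ => rfl
  let jK : F →ₐ[K] M := { (D.j : F →+* M) with commutes' := D.hj }
  let σK : F →ₐ[K] B := { σ with commutes' := h }
  let p : Ω ⊗[K] F →ₐ[Ω] M := Algebra.TensorProduct.lift (Algebra.ofId Ω M) jK (fun _ _ => Commute.all _ _)
  let q : Ω ⊗[K] F →ₐ[Ω] B := Algebra.TensorProduct.lift (Algebra.ofId Ω B) σK (fun _ _ => Commute.all _ _)
  have hp : ∀ z : F, p (1 ⊗ₜ z) = D.j z := by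
    intro z
    change Algebra.TensorProduct.lift (Algebra.ofId Ω M) jK (fun _ _ => Commute.all _ _) (1 ⊗ₜ z) = _
    rw [Algebra.TensorProduct.lift_tmul, map_one, one_mul]
    rfl
  have hq : ∀ z : F, q (1 ⊗ₜ z) = σ z := by
    intro z
    change Algebra.TensorProduct.lift (Algebra.ofId Ω B) σK (fun _ _ => Commute.all _ _) (1 ⊗ₜ z) = _
    rw [Algebra.TensorProduct.lift_tmul, map_one, one_mul]
    rfl
  have hsurj : Surjective p := by
    have h1 : Algebra.adjoin Ω (Set.range D.j) ≤ p.range := by
      rw [Algebra.adjoin_le_iff]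
      rintro _ ⟨z, rfl⟩
      exact ⟨1 ⊗ₜ z, hp z⟩
    rw [D.gen] at h1
    intro m
    obtain ⟨t, ht⟩ := h1 (Algebra.mem_top : m ∈ (⊤ : Subalgebra Ω M))
    exact ⟨t, ht⟩
  have hinj : Injective p := by
    let b := Module.Basis.ofVectorSpace K F
    let B' := Algebra.TensorProduct.basis Ω b
    have hli : LinearIndependent Ω (fun l => D.j (b l)) := by
      rw [linearIndependent_iff']
      intro s g hg l hl
      let e : Fin s.card ≃ s := s.equivFin.symm
      have h2 : ∀ c : Fin s.card → K, ∑ l, κ (c l) * b (e l) = 0 → c = 0 := by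
        intro c hc
        have h3 : LinearIndependent K (fun l => b (e l : _)) :=
          b.linearIndependent.comp (fun l => (e l : Module.Basis.ofVectorSpaceIndex K F))
            (Subtype.coe_injective.comp e.injective)
        rw [Fintype.linearIndependent_iff] at h3
        funext l
        refine h3 c ?_ l
        rw [← hc]
        refine Finset.sum_congr rfl fun l _ => ?_
        rw [Algebra.smul_def]
        rfl
      have h4 := D.lin s.card (fun l => b (e l)) h2 (fun l => g (e l)) (by
        have h9 : ∑ i : s, g i • D.j (b i) = 0 := by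
          rw [Finset.sum_coe_sort s (fun i => g i • D.j (b i))]
          exact hg
        rw [← Equiv.sum_comp e] at h9
        rw [← h9]
        refine Finset.sum_congr rfl fun l _ => ?_
        rw [Algebra.smul_def])
      have h5 := congrFun h4 (e.symm ⟨l, hl⟩)
      beta_reduce at h5
      rw [Equiv.apply_symm_apply] at h5
      exact h5
    rw [injective_iff_map_eq_zero]
    intro t ht
    have h6 : p t = Finsupp.linearCombination Ω (fun l => D.j (b l)) (B'.repr t) := by
      conv_lhs => rw [← B'.linearCombination_repr t]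
      rw [Finsupp.linearCombination_apply, Finsupp.linearCombination_apply, Finsupp.sum, map_sum]
      refine Finset.sum_congr rfl fun l _ => ?_
      rw [map_smul, Algebra.TensorProduct.basis_apply, hp]
    rw [h6] at ht
    have h7 : B'.repr t = 0 := by
      apply hli
      rw [ht, map_zero]
    exact (LinearEquiv.map_eq_zero_iff B'.repr).mp h7
  let e := AlgEquiv.ofBijective p ⟨hinj, hsurj⟩
  refine ⟨(q.comp (e.symm : M →ₐ[Ω] Ω ⊗[K] F) : M →ₐ[Ω] B), fun z => ?_, fun a => ?_⟩
  · have h8 : e.symm (D.j z) = 1 ⊗ₜ z := by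
      rw [AlgEquiv.symm_apply_eq]
      exact (hp z).symm
    change q (e.symm (D.j z)) = σ z
    rw [h8, hq]
  · exact (q.comp (e.symm : M →ₐ[Ω] Ω ⊗[K] F)).commutes a

theorem ext_unique {k K F : Type u} [Field k] [Field K] [Algebra k K] [Field F] [Algebra k F] {κ : K →ₐ[k] F}
    {Ω M : Type u} [Field Ω] [Algebra k Ω] [Algebra K Ω] [Field M] [Algebra k M] [Algebra Ω M]
    (D : BC κ Ω M) {B : Type u} [CommRing B] [Algebra Ω B] (σ τ : M →ₐ[Ω] B) (h : ∀ z, σ (D.j z) = τ (D.j z)) :
    σ = τ := by
  refine AlgHom.ext_of_adjoin_eq_top D.gen ?_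
  rintro _ ⟨z, rfl⟩
  exact h z

theorem stmtExt : StmtExt.{u} := by
  intro k K F _ _ _ _ _ _ _ κ Ω M _ _ _ _ _ _ _ _ _ _ _ D σ hσ
  obtain ⟨σ', h1, h2⟩ := exists_ext D (algebraMap Ω (AlgebraicClosure M)) (σ : F →+* AlgebraicClosure M) hσ
  refine ⟨{ σ' with commutes' := h2 }, h1, ?_⟩
  intro τ hτ
  exact ext_unique D _ _ fun z => (hτ z).trans (h1 z).symm

end Pool.Agent.Helper79.JC
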