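import Mathlib
import Pool.Agent.Helper79.JC.Ext
import Pool.Agent.Helper15.JC.Tr

/-!
# JC: a combination of correspondences which is principal on the generic fibre
-/

set_option linter.unusedSectionVars false

namespace Pool.Agent.Helper79.JC

open VC VF Function Polynomial Pool.Agent.Helper21.TO Pool.Agent.Helper21.TB Pool.Agent.Helper15.GT
open Pool.Agent.Helper15.KP Pool.Agent.Helper98.JC
open Pool.Agent.Helper51.VN (Harm)

universe u

/-- finiteness of the set of embeddings -/
lemma finite_set {k E F A : Type u} [Field k] [Field E] [Algebra k E] [Field F] [Algebra k F] [Field A] [Algebra k A]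
    (f : E →ₐ[k] F) (hf : (f : E →+* F).Finite) (e : E → A) :
    Finite {σ : F →ₐ[k] A // ∀ z, σ (f z) = e z} := by
  classical
  by_cases hne : Nonempty {σ : F →ₐ[k] A // ∀ z, σ (f z) = e z}
  · obtain ⟨σ0⟩ := hne
    let _ : Algebra E F := (f : E →+* F).toAlgebra
    let _ : Algebra E A := ((σ0.1.comp f : E →ₐ[k] A) : E →+* A).toAlgebra
    have : FiniteDimensional E F := hf
    let g : {σ : F →ₐ[k] A // ∀ z, σ (f z) = e z} → (F →ₐ[E] A) := fun σ =>
      { σ.1.toRingHom with
        commutes' := fun c => (σ.2 c).trans (σ0.2 c).symm }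
    refine Finite.of_injective g fun a b h => Subtype.ext ?_
    ext z
    exact DFunLike.congr_fun h z
  · rw [not_nonempty_iff] at hne
    infer_instance

variable {k K F : Type u} [Field k] [IsAlgClosed k] [CharZero k] [Field K] [Algebra k K] [Field F] [Algebra k F]
  {κ : K →ₐ[k] F} {Ω M : Type u} [Field Ω] [Algebra k Ω] [Algebra K Ω] [IsScalarTower k K Ω] [IsAlgClosed Ω]
  [CharZero Ω] [Algebra.IsAlgebraic K Ω] [Field M] [Algebra k M] [Algebra Ω M] [IsScalarTower k Ω M]

lemma BC.iA_apply (D : BC κ Ω M) (z : F) : D.iA z = algebraMap M (AlgebraicClosure M) (D.j z) := rfl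

/-- The value of a harmonic function at the composite places is orthogonal to the principal divisors. -/
theorem rat_zero (hK : IsFunctionField k K) (D : BC κ Ω M) {u : RPl k F → k} (hu : HF k F u) (P : RPl k Ω)
    {z : Place Ω M →₀ ℤ} (hz : z ∈ (curve D.ff).Rat) :
    Finsupp.linearCombination ℤ (fun y => u ((cmp (rp D.ff y) P).comap D.j)) z = 0 := by
  have h1 : Harm D.ff (fun y => algebraMap k Ω (u ((cmp (rp D.ff y) P).comap D.j))) := by
    intro g hg
    have h2 := orth hK D.ff (hu.comap D.j) P g hg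
    have h3 := congrArg (algebraMap k Ω) h2
    rw [map_sum, map_zero] at h3
    rw [← h3]
    refine Finset.sum_congr rfl fun y _ => ?_
    rw [map_mul, map_intCast]
  have h4 := harm_curve h1 z hz
  have h5 : Finsupp.linearCombination ℤ (fun y => algebraMap k Ω (u ((cmp (rp D.ff y) P).comap D.j))) z =
      algebraMap k Ω (Finsupp.linearCombination ℤ (fun y => u ((cmp (rp D.ff y) P).comap D.j)) z) := by
    rw [Finsupp.linearCombination_apply, Finsupp.linearCombination_apply, Finsupp.sum, Finsupp.sum, map_sum]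
    refine Finset.sum_congr rfl fun y _ => ?_
    rw [zsmul_eq_mul, zsmul_eq_mul, map_mul, map_intCast]
  rw [h5] at h4
  exact (map_eq_zero_iff _ (algebraMap k Ω).injective).mp h4

/-- The restriction of embeddings of `M` to embeddings of `F`. -/
theorem res_bijective (D : BC κ Ω M) {E : Type u} [Field E] [Algebra k E] (κE : K →ₐ[k] E) (f g : E →ₐ[k] F)
    (hf : f.comp κE = κ) (hg : g.comp κE = κ) :
    Bijective (fun σ : {σ : M →ₐ[Ω] AlgebraicClosure M // ∀ z : E, σ (D.j (f z)) = D.iA (g z)} =>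
      (⟨(σ.1.restrictScalars k).comp D.j, σ.2⟩ : {σ : F →ₐ[k] AlgebraicClosure M // ∀ z : E, σ (f z) = D.iA (g z)})) := by
  constructor
  · intro σ τ h
    apply Subtype.ext
    refine ext_unique D _ _ fun z => ?_
    exact DFunLike.congr_fun (congrArg Subtype.val h) z
  · intro σ
    obtain ⟨σ', h1, -⟩ := stmtExt k K F κ Ω M D σ.1 (fun a => by
      have h2 : κ a = f (κE a) := (DFunLike.congr_fun hf a).symm
      have h3 : g (κE a) = κ a := DFunLike.congr_fun hg a
      rw [h2, σ.2, h3, D.iA_apply, D.hj]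
      exact (IsScalarTower.algebraMap_apply Ω M (AlgebraicClosure M) _).symm)
    refine ⟨⟨σ', fun z => ?_⟩, ?_⟩
    · rw [h1, σ.2]
    · apply Subtype.ext
      ext z
      exact h1 z

lemma finite_setM (D : BC κ Ω M) {E : Type u} [Field E] [Algebra k E] (κE : K →ₐ[k] E) (f g : E →ₐ[k] F)
    (hf : f.comp κE = κ) (hg : g.comp κE = κ) (hfin : (f : E →+* F).Finite) :
    Finite {σ : M →ₐ[Ω] AlgebraicClosure M // ∀ z : E, σ (D.j (f z)) = D.iA (g z)} := by
  have := finite_set (A := AlgebraicClosure M) f hfin (fun z => D.iA (g z))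
  exact Finite.of_injective _ (res_bijective D κE f g hf hg).1

/-- The value of `cE` at a composite place. -/
theorem cE_cmp (D : BC κ Ω M) {E : Type u} [Field E] [Algebra k E] (κE : K →ₐ[k] E) (f g : E →ₐ[k] F)
    (hf : f.comp κE = κ) (hg : g.comp κE = κ) (hfin : (f : E →+* F).Finite) (u : RPl k F → k)
    (x : RPl Ω (AlgebraicClosure M)) (P : RPl k Ω) :
    cE D f g u (cmp x P) =
      Finsupp.linearCombination ℤ (fun y => u ((cmp (rp D.ff y) P).comap D.j)) (corr D f g x) := by
  classical
  have := finite_setM D κE f g hf hg hfin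
  let _ := Fintype.ofFinite {σ : M →ₐ[Ω] AlgebraicClosure M // ∀ z : E, σ (D.j (f z)) = D.iA (g z)}
  have h1 : cE D f g u (cmp x P) =
      ∑ᶠ σ : {σ : M →ₐ[Ω] AlgebraicClosure M // ∀ z : E, σ (D.j (f z)) = D.iA (g z)},
        u ((cmp (rp D.ff (x.pl D.ff σ.1)) P).comap D.j) := by
    unfold cE
    symm
    refine finsum_eq_of_bijective _ (res_bijective D κE f g hf hg) fun σ => ?_
    congr 1
    have h2 : rp D.ff (x.pl D.ff σ.1) = x.comap σ.1 := by
      ext z
      rfl
    rw [h2, ← cmp_comap, RPl.comap_comap]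
  rw [h1, corr, finsum_eq_sum_of_fintype, finsum_eq_sum_of_fintype, map_sum]
  refine Finset.sum_congr rfl fun σ _ => ?_
  rw [Finsupp.linearCombination_single, one_smul]

theorem stmtRel : StmtRel.{u} := by
  intro k K F _ _ _ _ _ _ _ κ Ω M _ _ _ _ _ _ _ _ _ _ _ hK D I _ c E _ _ κE f g hf hg hff hgf hrel u hu x y P
  have h1 := rat_zero hK D hu P (hrel x y)
  rw [map_sum] at h1
  rw [← sub_eq_zero, ← Finset.sum_sub_distrib, ← h1]
  refine Finset.sum_congr rfl fun t _ => ?_
  rw [cE_cmp D (κE t) (f t) (g t) (hf t) (hg t) (hff t), cE_cmp D (κE t) (f t) (g t) (hf t) (hg t) (hff t),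
    map_smul, map_sub, zsmul_eq_mul]
  ring

end Pool.Agent.Helper79.JC
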