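import Mathlib
import Pool.Agent.Helper79.JC.Rel
import Pool.Agent.Helper15.JC.Tr
import Pool.Agent.Helper15.GT.Move

/-!
# JC: the assembly of the harmonic part
-/

set_option linter.unusedSectionVars false

namespace Pool.Agent.Helper79.JC

open VC VF Function Polynomial Pool.Agent.Helper21.TO Pool.Agent.Helper21.TB Pool.Agent.Helper15.GT
open Pool.Agent.Helper15.KP Pool.Agent.Helper98.JC Pool.Agent.Helper15.JC
open Pool.Agent.Helper51.VN (Harm)

universe u

/-- [CE] the sums over embeddings in the algebraic closure of `M` are traces. -/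
def StmtCE : Prop := ∀ (k K F : Type u) [Field k] [IsAlgClosed k] [CharZero k] [Field K] [Algebra k K] [Field F]
    [Algebra k F] (κ : K →ₐ[k] F) (Ω M : Type u) [Field Ω] [Algebra k Ω] [Algebra K Ω] [IsScalarTower k K Ω]
    [IsAlgClosed Ω] [CharZero Ω] [Algebra.IsAlgebraic K Ω] [Field M] [Algebra k M] [Algebra Ω M]
    [IsScalarTower k Ω M] (D : BC κ Ω M) (E : Type u) [Field E] [Algebra k E] (f g : E →ₐ[k] F)
    (_ : (f : E →+* F).Finite) (_ : (g : E →+* F).Finite) (u : RPl k F → k) (_ : HF k F u)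
    (w : RPl k (AlgebraicClosure M)), cE D f g u w = tr f u ((w.comap D.iA).comap g)

lemma HF.sumJ (hAdd : StmtAdd.{u}) {k F : Type u} [Field k] [IsAlgClosed k] [CharZero k] [Field F] [Algebra k F]
    {ι : Type*} (s : Finset ι) (c : ι → k) (v : ι → RPl k F → k) (h : ∀ t ∈ s, HF k F (v t)) {u : RPl k F → k}
    (hu : HF k F u) : HF k F (fun w => ∑ t ∈ s, c t * v t w) := by
  classical
  induction s using Finset.induction_on with
  | empty =>
    have h1 := hu.smul 0
    have h2 : (fun w : RPl k F => (0 : k) * u w) = fun w => ∑ t ∈ (∅ : Finset ι), c t * v t w := by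
      funext w
      rw [Finset.sum_empty, zero_mul]
    rw [h2] at h1
    exact h1
  | insert a s ha ih =>
    have h1 := hAdd k F _ _ ((h a (Finset.mem_insert_self _ _)).smul (c a))
      (ih fun t ht => h t (Finset.mem_insert_of_mem ht))
    have h2 : (fun w : RPl k F => c a * v a w + ∑ t ∈ s, c t * v t w) =
        fun w => ∑ t ∈ insert a s, c t * v t w := by
      funext w
      rw [Finset.sum_insert ha]
    rw [h2] at h1
    exact h1

theorem harm_of (hAdd : StmtAdd.{u}) (hGen : StmtGen.{u}) (hDsc : StmtDsc.{u}) (hCE : StmtCE.{u}) :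
    StmtHarm.{u} := by
  classical
  intro k K F _ _ _ _ _ _ _ κ Ω M _ _ _ _ _ _ _ _ _ _ _ hK D I _ c E _ _ κE f g hf hg hff hgf hrel u hu
  set v : RPl k F → k := fun w => ∑ t, (c t : k) * tr (f t) u (w.comap (g t)) with hv
  have hvH : HF k F v := HF.sumJ hAdd Finset.univ (fun t => (c t : k)) (fun t w => tr (f t) u (w.comap (g t)))
    (fun t _ => ((tr_spec0 (f t) (hff t) hu).1).comap (g t)) hu
  have hvA : ∀ w : RPl k (AlgebraicClosure M), ∑ t, (c t : k) * cE D (f t) (g t) u w = v (w.comap D.iA) := by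
    intro w
    refine Finset.sum_congr rfl fun t _ => ?_
    rw [hCE k K F κ Ω M D (E t) (f t) (g t) (hff t) (hgf t) u hu w]
  have hlift : ∀ (x' : RPl Ω (AlgebraicClosure M)) (P : RPl k Ω),
      (cmp (x'.comap (IsScalarTower.toAlgHom Ω M (AlgebraicClosure M))) P).comap D.j = (cmp x' P).comap D.iA := by
    intro x' P
    rw [← cmp_comap, RPl.comap_comap]
    rfl
  have hind : ∀ (x y : RPl Ω M) (P : RPl k Ω), v ((cmp x P).comap D.j) = v ((cmp y P).comap D.j) := by
    intro x y P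
    obtain ⟨x', rfl⟩ := exists_lift (IsScalarTower.toAlgHom Ω M (AlgebraicClosure M)) x
    obtain ⟨y', rfl⟩ := exists_lift (IsScalarTower.toAlgHom Ω M (AlgebraicClosure M)) y
    rw [hlift, hlift, ← hvA, ← hvA]
    exact stmtRel k K F κ Ω M hK D I c E κE f g hf hg hff hgf hrel u hu x' y' P
  obtain ⟨ν, hν, hνv⟩ := hDsc k K F κ Ω M hK D v hvH hind
  refine ⟨ν, hν, fun w => ?_⟩
  rw [hvA]
  obtain ⟨N, ξ, hξ, φ, hφ, hφv⟩ := hvH
  obtain ⟨G, hG, h⟩ := hGen k K F κ Ω M hK D N ξ hξ
  rw [hφv]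
  refine moving hK κ ξ hξ hφ hν G hG (fun w hw => ?_) _
  obtain ⟨x, P, h1, h2⟩ := h w hw
  rw [← h2, ← hφv, hνv]
  congr 1
  ext z
  have h3 := congrArg RPl.ring h1
  change z ∈ (P.comap (IsScalarTower.toAlgHom k K Ω)).ring ↔ z ∈ (w.comap κ).ring
  rw [h3]

end Pool.Agent.Helper79.JC
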