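import Mathlib
import Pool.Agent.Helper79.JC.Harm
import Pool.Agent.Helper15.JC.CE
import Pool.Agent.Helper9.JC.Add
import Pool.Agent.Helper67.JC.Dsc
import Pool.Agent.Helper98.JC.SecG
import Pool.Agent.Helper35.JC.Cen

/-!
# JC: the harmonic part, final form
-/

set_option linter.unusedSectionVars false

namespace Pool.Agent.Helper79.JC

open VC VF Function Polynomial Pool.Agent.Helper21.TO Pool.Agent.Helper21.TB Pool.Agent.Helper15.GT
open Pool.Agent.Helper15.KP Pool.Agent.Helper98.JC Pool.Agent.Helper15.JC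
open Pool.Agent.Helper51.VN (Harm)

universe u

theorem ce : StmtCE.{u} := by
  intro k K F _ _ _ _ _ _ _ κ Ω M _ _ _ _ _ _ _ _ _ _ _ D E _ _ f g hf hg u hu w
  exact cE_eq D f g hf hg hu w

theorem harm_gen (hGen : StmtGen.{u}) : StmtHarm.{u} :=
  harm_of add hGen (Pool.Agent.Helper67.JC.dsc_of Pool.Agent.Helper98.JC.sec) ce

theorem harm : StmtHarm.{u} := harm_gen Pool.Agent.Helper35.JC.gen

end Pool.Agent.Helper79.JC
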